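import Pool.Agent.W221.NS.Stm

open MeasureTheory Set
open scoped ContDiff NNReal

set_option autoImplicit false

namespace Pool.Agent.W940.MD

open H459R3.NS W221.NS

theorem pd_eq {U : V → V} (hU : ContDiff ℝ 1 U) (x : V) (i j : Fin 3) :
    pd j (fun y => U y i) x = fderiv ℝ U x (Pi.single j 1) i := by
  unfold pd
  have hd : DifferentiableAt ℝ U x := (hU.differentiable (by norm_num)) x
  have h1 : HasFDerivAt (fun y => U y i)
      ((ContinuousLinearMap.proj (R := ℝ) (φ := fun _ : Fin 3 => ℝ) i).comp (fderiv ℝ U x)) x :=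
    (hasFDerivAt_pi'.1 hd.hasFDerivAt) i
  rw [h1.fderiv]
  rfl

theorem norm_le {L : ℝ} (hL : 0 ≤ L) {U : V → V} (hU : ContDiff ℝ 1 U)
    (hb : ∀ x i j, |pd j (fun y => U y i) x| ≤ L) (x : V) : ‖fderiv ℝ U x‖ ≤ 3 * L := by
  refine ContinuousLinearMap.opNorm_le_bound _ (by positivity) fun v => ?_
  rw [pi_norm_le_iff_of_nonneg (by positivity)]
  intro i
  have hv : v = ∑ j, v j • (Pi.single j (1 : ℝ) : V) := by
    funext k
    simp [Finset.sum_apply, Pi.single_apply]
  have h1 : fderiv ℝ U x v i = ∑ j, v j * pd j (fun y => U y i) x := by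
    conv_lhs => rw [hv]
    rw [map_sum, Finset.sum_apply]
    refine Finset.sum_congr rfl fun j _ => ?_
    rw [map_smul, Pi.smul_apply, smul_eq_mul, pd_eq hU]
  rw [h1, Real.norm_eq_abs]
  calc |∑ j, v j * pd j (fun y => U y i) x| ≤ ∑ j, |v j * pd j (fun y => U y i) x| :=
        Finset.abs_sum_le_sum_abs _ _
    _ ≤ ∑ _j : Fin 3, ‖v‖ * L := by
        refine Finset.sum_le_sum fun j _ => ?_
        rw [abs_mul]
        exact mul_le_mul (norm_le_pi_norm v j) (hb x i j) (abs_nonneg _) (norm_nonneg _)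
    _ = 3 * L * ‖v‖ := by
        rw [Finset.sum_const, Finset.card_univ, Fintype.card_fin]; simp; ring

theorem det_est {L : ℝ} (hL : 0 ≤ L) (a : Fin 3 → Fin 3 → ℝ) (ha : ∀ i j, |a i j| ≤ L)
    (htr : ∑ i, a i i = 0) (h : ℝ) (hh : |h| ≤ 1) :
    |(Matrix.of fun i j => (if i = j then (1 : ℝ) else 0) + h * a i j).det - 1| ≤
      (6 * L ^ 2 + 6 * L ^ 3) * h ^ 2 := by
  have hdet : (Matrix.of fun i j => (if i = j then (1 : ℝ) else 0) + h * a i j).det - 1 =
      h * (∑ i, a i i) + h ^ 2 * ((a 0 0 * a 1 1 - a 0 1 * a 1 0) + (a 0 0 * a 2 2 - a 0 2 * a 2 0) +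
        (a 1 1 * a 2 2 - a 1 2 * a 2 1) +
        h * (a 0 0 * a 1 1 * a 2 2 - a 0 0 * a 1 2 * a 2 1 - a 0 1 * a 1 0 * a 2 2 +
          a 0 1 * a 1 2 * a 2 0 + a 0 2 * a 1 0 * a 2 1 - a 0 2 * a 1 1 * a 2 0)) := by
    rw [Matrix.det_fin_three, Fin.sum_univ_three]
    simp
    ring
  rw [hdet, htr, mul_zero, zero_add, abs_mul, abs_of_nonneg (sq_nonneg h), mul_comm]
  refine mul_le_mul_of_nonneg_right ?_ (sq_nonneg h)
  have h2 : ∀ i j k l, |a i j * a k l| ≤ L ^ 2 := fun i j k l => by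
    rw [abs_mul, sq]
    exact mul_le_mul (ha _ _) (ha _ _) (abs_nonneg _) hL
  have h3 : ∀ i j k l m n, |a i j * a k l * a m n| ≤ L ^ 3 := fun i j k l m n => by
    rw [abs_mul, pow_succ]
    exact mul_le_mul (h2 _ _ _ _) (ha _ _) (abs_nonneg _) (by positivity)
  have e1 := abs_le.1 (h2 0 0 1 1)
  have e2 := abs_le.1 (h2 0 1 1 0)
  have e3 := abs_le.1 (h2 0 0 2 2)
  have e4 := abs_le.1 (h2 0 2 2 0)
  have e5 := abs_le.1 (h2 1 1 2 2)
  have e6 := abs_le.1 (h2 1 2 2 1)
  have f1 := abs_le.1 (h3 0 0 1 1 2 2)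
  have f2 := abs_le.1 (h3 0 0 1 2 2 1)
  have f3 := abs_le.1 (h3 0 1 1 0 2 2)
  have f4 := abs_le.1 (h3 0 1 1 2 2 0)
  have f5 := abs_le.1 (h3 0 2 1 0 2 1)
  have f6 := abs_le.1 (h3 0 2 1 1 2 0)
  have hd : |a 0 0 * a 1 1 * a 2 2 - a 0 0 * a 1 2 * a 2 1 - a 0 1 * a 1 0 * a 2 2 +
          a 0 1 * a 1 2 * a 2 0 + a 0 2 * a 1 0 * a 2 1 - a 0 2 * a 1 1 * a 2 0| ≤ 6 * L ^ 3 := by
    rw [abs_le]; constructor <;> linarith [f1.1, f1.2, f2.1, f2.2, f3.1, f3.2, f4.1, f4.2, f5.1,
      f5.2, f6.1, f6.2]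
  have hhd : |h * (a 0 0 * a 1 1 * a 2 2 - a 0 0 * a 1 2 * a 2 1 - a 0 1 * a 1 0 * a 2 2 +
          a 0 1 * a 1 2 * a 2 0 + a 0 2 * a 1 0 * a 2 1 - a 0 2 * a 1 1 * a 2 0)| ≤ 6 * L ^ 3 := by
    rw [abs_mul]
    calc _ ≤ 1 * (6 * L ^ 3) := mul_le_mul hh hd (abs_nonneg _) (by norm_num)
      _ = _ := one_mul _
  have hhd' := abs_le.1 hhd
  rw [abs_le]
  constructor <;> linarith [e1.1, e1.2, e2.1, e2.2, e3.1, e3.2, e4.1, e4.2, e5.1, e5.2, e6.1,
    e6.2, hhd'.1, hhd'.2]

theorem t_EULER : S_EULER := by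
  intro L hL
  set C' : ℝ := 6 * L ^ 2 + 6 * L ^ 3 with hC'
  have hC0 : 0 ≤ C' := by positivity
  have hden : 0 < 1 + 6 * L + 2 * C' := by positivity
  refine ⟨2 * C' + 1, 1 / (1 + 6 * L + 2 * C'), by positivity, by positivity, ?_⟩
  intro U hU hb hdiv h hh f hf hfc hf0
  have hh0 : |h| * (1 + 6 * L + 2 * C') ≤ 1 := by
    have := (le_div_iff₀ hden).1 hh
    exact this
  have hn := abs_nonneg h
  have hh1 : |h| ≤ 1 := by nlinarith [mul_nonneg hn hL, mul_nonneg hn hC0]
  have hh2 : |h| * (3 * L) ≤ 1 / 2 := by nlinarith [mul_nonneg hn hL, mul_nonneg hn hC0]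
  have hh3 : |h| * C' ≤ 1 / 2 := by nlinarith [mul_nonneg hn hL, mul_nonneg hn hC0]
  have hsq : h ^ 2 ≤ |h| := by rw [← sq_abs]; nlinarith
  have hh4 : C' * h ^ 2 ≤ 1 / 2 := by nlinarith
  have hUd : Differentiable ℝ U := hU.differentiable (by norm_num)
  -- Lipschitz perturbation
  have hgd : Differentiable ℝ (fun x => h • U x) := hUd.const_smul h
  have hglip : LipschitzWith (1 / 2) (fun x => h • U x) := by
    refine lipschitzWith_of_nnnorm_fderiv_le hgd fun x => ?_
    have e : fderiv ℝ (fun x => h • U x) x = h • fderiv ℝ U x := fderiv_const_smul (hUd x) h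
    rw [e, ← NNReal.coe_le_coe, coe_nnnorm, norm_smul, Real.norm_eq_abs]
    have := norm_le hL hU hb x
    calc |h| * ‖fderiv ℝ U x‖ ≤ |h| * (3 * L) := mul_le_mul_of_nonneg_left this hn
      _ ≤ 1 / 2 := hh2
      _ = _ := by simp
  set Y : V → V := fun x => x + h • U x with hY
  have hanti : AntilipschitzWith ((1 : ℝ≥0)⁻¹ - 1 / 2)⁻¹ Y := by
    have h1 : AntilipschitzWith 1 (fun x : V => x) := AntilipschitzWith.id
    exact h1.add_lipschitzWith hglip (by
      rw [inv_one, ← NNReal.coe_lt_coe]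
      push_cast
      norm_num)
  have hYlip : LipschitzWith (1 + 1 / 2) Y := LipschitzWith.id.add hglip
  have hemb : Topology.IsClosedEmbedding Y := hanti.isClosedEmbedding hYlip.uniformContinuous
  have hinj : Function.Injective Y := hemb.injective
  have hsurj : Function.Surjective Y := by
    intro y
    have hc : ContractingWith (1 / 2) (fun z => y - h • U z) := by
      refine ⟨?_, ?_⟩
      · rw [← NNReal.coe_lt_coe]; push_cast; norm_num
      · refine LipschitzWith.of_dist_le_mul fun a b => ?_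
        have := hglip.dist_le_mul a b
        rwa [dist_sub_left]
    refine ⟨hc.fixedPoint, ?_⟩
    have hfix : y - h • U hc.fixedPoint = hc.fixedPoint := hc.fixedPoint_isFixedPt
    show hc.fixedPoint + h • U hc.fixedPoint = y
    conv_lhs => lhs; rw [← hfix]
    abel
  have hYd : ∀ x, HasFDerivAt Y (ContinuousLinearMap.id ℝ V + h • fderiv ℝ U x) x := fun x =>
    (hasFDerivAt_id x).add ((hUd x).hasFDerivAt.const_smul h)
  have hdet : ∀ x, |(ContinuousLinearMap.id ℝ V + h • fderiv ℝ U x).det - 1| ≤ C' * h ^ 2 := by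
    intro x
    have hmat : (ContinuousLinearMap.id ℝ V + h • fderiv ℝ U x).det =
        (Matrix.of fun i j => (if i = j then (1 : ℝ) else 0) +
          h * pd j (fun y => U y i) x).det := by
      rw [ContinuousLinearMap.det, ← LinearMap.det_toMatrix']
      congr 1
      ext i j
      rw [LinearMap.toMatrix'_apply, Matrix.of_apply, pd_eq hU]
      have e : (fun j' : Fin 3 => if j' = j then (1 : ℝ) else 0) = Pi.single j 1 := by
        funext k; simp [Pi.single_apply]
      simp [Pi.single_apply]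
    rw [hmat]
    exact det_est hL _ (fun i j => hb x i j) (hdiv x) h hh1
  have hcov : ∫ x, f x = ∫ x, |(ContinuousLinearMap.id ℝ V + h • fderiv ℝ U x).det| * f (Y x) := by
    have := integral_image_eq_integral_abs_det_fderiv_smul (volume : Measure V)
      (s := univ) (f := Y) (f' := fun x => ContinuousLinearMap.id ℝ V + h • fderiv ℝ U x)
      MeasurableSet.univ (fun x _ => (hYd x).hasFDerivWithinAt) hinj.injOn f
    rw [image_univ, hsurj.range_eq, setIntegral_univ, setIntegral_univ] at this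
    simpa [smul_eq_mul] using this
  have hYc : Continuous Y := hemb.continuous
  have hfY : Continuous fun x => f (Y x) := hf.comp hYc
  have hfYc : HasCompactSupport fun x => f (Y x) := hfc.comp_isClosedEmbedding hemb
  have hint : Integrable fun x => f (Y x) := hfY.integrable_of_hasCompactSupport hfYc
  have hdc : Continuous fun x => |(ContinuousLinearMap.id ℝ V + h • fderiv ℝ U x).det| := by
    have : Continuous fun x => ContinuousLinearMap.id ℝ V + h • fderiv ℝ U x :=
      continuous_const.add ((hU.continuous_fderiv (by norm_num)).const_smul h)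
    exact (ContinuousLinearMap.continuous_det.comp this).abs
  have hint2 : Integrable fun x =>
      |(ContinuousLinearMap.id ℝ V + h • fderiv ℝ U x).det| * f (Y x) :=
    (hdc.mul hfY).integrable_of_hasCompactSupport hfYc.mul_left
  set I : ℝ := ∫ x, f (Y x) with hI
  have hI0 : 0 ≤ I := integral_nonneg fun x => hf0 _
  have hlow : 1 / 2 * I ≤ ∫ x, f x := by
    rw [hcov, hI, ← integral_const_mul]
    refine integral_mono (hint.const_mul _) hint2 fun x => ?_
    have h1 := abs_le.1 (hdet x)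
    refine mul_le_mul_of_nonneg_right ?_ (hf0 _)
    refine le_trans ?_ (le_abs_self _)
    linarith [h1.1]
  have hdiff : |I - ∫ x, f x| ≤ C' * h ^ 2 * I := by
    rw [hcov, hI, ← integral_sub hint hint2, ← integral_const_mul]
    refine (abs_integral_le_integral_abs).trans ?_
    refine integral_mono (hint.sub hint2).abs (hint.const_mul _) fun x => ?_
    have h1 := abs_le.1 (hdet x)
    have hpos : 0 ≤ (ContinuousLinearMap.id ℝ V + h • fderiv ℝ U x).det := by linarith [h1.1]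
    have e : f (Y x) - |(ContinuousLinearMap.id ℝ V + h • fderiv ℝ U x).det| * f (Y x) =
        -((ContinuousLinearMap.id ℝ V + h • fderiv ℝ U x).det - 1) * f (Y x) := by
      rw [abs_of_nonneg hpos]; ring
    show |f (Y x) - |(ContinuousLinearMap.id ℝ V + h • fderiv ℝ U x).det| * f (Y x)| ≤ _
    rw [e, abs_mul, abs_neg, abs_of_nonneg (hf0 _)]
    exact mul_le_mul_of_nonneg_right (hdet x) (hf0 _)
  have hfin : C' * h ^ 2 * I ≤ (2 * C' + 1) * h ^ 2 * ∫ x, f x := by
    have hf1 : 0 ≤ ∫ x, f x := integral_nonneg hf0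
    have h1 : C' * h ^ 2 * I ≤ C' * h ^ 2 * (2 * ∫ x, f x) :=
      mul_le_mul_of_nonneg_left (by linarith) (by positivity)
    have h2 : 0 ≤ h ^ 2 * ∫ x, f x := by positivity
    nlinarith
  exact hdiff.trans hfin

end Pool.Agent.W940.MD
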